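import Pool.Agent.Lib.MP_9ff3e7_ag.Sc.Main

/-! Fujita freeness: `K_X + mA` is globally generated for `m ≥ dim X + 1`. -/

set_option autoImplicit false

namespace Pool.Agent.Results.MP_9ff3e7_ag.Freeness

open AlgebraicGeometry Pool.Agent.Lib.MP_9ff3e7_ag.Sc

theorem result (X : Scheme.{0}) [IsIntegral X] (sX : X ⟶ Spec (CommRingCat.of ℂ)) (n : ℕ)
    [SmoothOfRelativeDimension n sX] [IsProper sX] (A : X.Modules) (hA : LineBundle A)
    (ha : Ample A) (m : ℕ) (hm : n + 1 ≤ m) (x : X) :
    letI := constAlgebra sX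
    AdjGen A n m x :=
  letI := constAlgebra sX
  (cst_const sX).free n hA ha hm x

end Pool.Agent.Results.MP_9ff3e7_ag.Freeness
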