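import Pool.Agent.Lib.MP_9ff3e7_ag.F.NTop

/-! A numerical criterion for the freeness of adjoint bundles. -/

set_option autoImplicit false

namespace Pool.Agent.Results.MP_9ff3e7_ag.Numerical

open Pool.Agent.Lib.MP_9ff3e7_ag.F

theorem result {S : Type} [CommRing S] [IsDomain S] [Algebra ℂ S]
    (𝒜 : ℕ → Submodule ℂ S) [GradedAlgebra 𝒜]
    (hfg : ∃ s : Finset S, (∀ a ∈ s, a ∈ 𝒜 1) ∧ Algebra.adjoin ℂ (s : Set S) = ⊤)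
    (n : ℕ) (hn : Algebra.trdeg ℂ (Fn 𝒜) = n)
    (A : Cartier 𝒜) (k : ℕ) (hk : 0 < k) (hA : A.Hyperplane k) (x : Sm 𝒜)
    (c : ℕ → ℝ) (h1 : 0 < c 1) (hc : ∀ d d', 1 ≤ d → d ≤ d' → d' ≤ n → c d ≤ c d')
    (hdeg : ∀ I : Ideal S, I.IsPrime → I.IsHomogeneous 𝒜 → (∀ f ∈ I, x.1.1 f = 0) →
      ∀ d a : ℕ, 1 ≤ d → d ≤ n → HasDeg 𝒜 I d (k ^ d * a) → c d ^ d ≤ a)
    (m : ℕ) (hm : ∑ d ∈ Finset.Icc 1 n, 1 / c d < m) : A.FreeSm n m x :=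
  fujita_num 𝒜 hfg n hn A k hk hA x c h1 hc hdeg m hm

end Pool.Agent.Results.MP_9ff3e7_ag.Numerical
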