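import Pool.Agent.Lib.MP_9ff3e7_ag.Sc.Sep

/-! `K_X + mA` separates points for `m ≥ dim X + 2`. -/

set_option autoImplicit false

namespace Pool.Agent.Results.MP_9ff3e7_ag.Points

open AlgebraicGeometry Pool.Agent.Lib.MP_9ff3e7_ag.Sc

theorem result (X : Scheme.{0}) [IsIntegral X] (sX : X ⟶ Spec (CommRingCat.of ℂ)) (n : ℕ)
    [SmoothOfRelativeDimension n sX] [IsProper sX] (A : X.Modules) (hA : LineBundle A)
    (ha : Ample A) (m : ℕ) (hm : n + 2 ≤ m) (x y : X) (hx : IsClosed ({x} : Set X))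
    (hy : IsClosed ({y} : Set X)) (hxy : x ≠ y) :
    letI := constAlgebra sX
    AdjSep A n m x y :=
  letI := constAlgebra sX
  (cst_const sX).sep n hA ha hm hx hy hxy

end Pool.Agent.Results.MP_9ff3e7_ag.Points
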